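import Pool.Agent.Y922.KB.Stm

/-!
# KB-STEP: the Schwarz-Pick step
-/

set_option autoImplicit false

namespace Pool.Agent.Y151.KB

open Complex Metric Set
open Pool.Agent.Y922.KB

lemma norm_sub_le_mob (a b : ℂ) (ha : ‖a‖ ≤ 1) (hb : ‖b‖ ≤ 1) :
    ‖a - b‖ ≤ ‖1 - (starRingEnd ℂ) b * a‖ := by
  have h1 : ‖a - b‖ ^ 2 ≤ ‖1 - (starRingEnd ℂ) b * a‖ ^ 2 := by
    have e : ‖1 - (starRingEnd ℂ) b * a‖ ^ 2 - ‖a - b‖ ^ 2 = (1 - ‖a‖ ^ 2) * (1 - ‖b‖ ^ 2) := by
      rw [Complex.sq_norm, Complex.sq_norm, Complex.sq_norm, Complex.sq_norm,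
        Complex.normSq_apply, Complex.normSq_apply, Complex.normSq_apply, Complex.normSq_apply]
      simp only [sub_re, sub_im, mul_re, mul_im, conj_re, conj_im, one_re, one_im]
      ring
    have h2 : 0 ≤ (1 - ‖a‖ ^ 2) * (1 - ‖b‖ ^ 2) := by
      apply mul_nonneg
      · have := norm_nonneg a
        nlinarith
      · have := norm_nonneg b
        nlinarith
    linarith
  exact (sq_le_sq₀ (norm_nonneg _) (norm_nonneg _)).mp h1

/-- STEP -/
theorem t_STEP : S_STEP := by
  intro w z z' ρ hρ hd hw hz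
  have hzm : z ∈ ball z ρ := mem_ball_self hρ
  have hzm' : z' ∈ ball z ρ := by
    rw [mem_ball, dist_eq_norm]
    linarith
  have h0 : ‖w z‖ ≤ 1 := hw z hzm
  rcases h0.lt_or_eq with hlt | heq
  · -- the Moebius transform
    have hne : ∀ u ∈ ball z ρ, 1 - (starRingEnd ℂ) (w z) * w u ≠ 0 := by
      intro u hu h
      have h1 : (starRingEnd ℂ) (w z) * w u = 1 := (sub_eq_zero.mp h).symm
      have h2 : ‖(starRingEnd ℂ) (w z) * w u‖ < 1 := by
        rw [norm_mul, RCLike.norm_conj]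
        have := hw u hu
        have := norm_nonneg (w u)
        have := norm_nonneg (w z)
        nlinarith
      rw [h1, norm_one] at h2
      exact lt_irrefl _ h2
    let F : ℂ → ℂ := fun u => (w u - w z) / (1 - (starRingEnd ℂ) (w z) * w u)
    have hF0 : F z = 0 := by
      change (w z - w z) / _ = 0
      rw [sub_self, zero_div]
    have hFd : DifferentiableOn ℂ F (ball z ρ) := by
      apply DifferentiableOn.div (hd.sub_const _) _ hne
      exact (differentiableOn_const _).sub (hd.const_mul _)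
    have hFm : MapsTo F (ball z ρ) (closedBall (F z) 1) := by
      intro u hu
      rw [hF0, mem_closedBall_zero_iff]
      change ‖(w u - w z) / (1 - (starRingEnd ℂ) (w z) * w u)‖ ≤ 1
      rw [norm_div, div_le_one (norm_pos_iff.mpr (hne u hu))]
      exact norm_sub_le_mob _ _ (hw u hu) h0
    have h3 := Complex.dist_le_div_mul_dist_of_mapsTo_ball hFd hFm hzm'
    rw [hF0, dist_zero_right, dist_eq_norm] at h3
    have h4 : ‖F z'‖ ≤ 1 / 2 := by
      refine h3.trans ?_
      rw [one_div, inv_mul_le_iff₀ hρ]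
      linarith
    have h5 : ‖w z' - w z‖ ≤ 1 / 2 * ‖1 - (starRingEnd ℂ) (w z) * w z'‖ := by
      have h6 : ‖F z'‖ = ‖w z' - w z‖ / ‖1 - (starRingEnd ℂ) (w z) * w z'‖ := norm_div _ _
      rw [h6, div_le_iff₀ (norm_pos_iff.mpr (hne z' hzm'))] at h4
      exact h4
    have h6 : ‖1 - (starRingEnd ℂ) (w z) * w z'‖ ≤ 2 * (1 - ‖w z‖) + ‖w z' - w z‖ := by
      have e : 1 - (starRingEnd ℂ) (w z) * w z' =
          ((1 - ‖w z‖ ^ 2 : ℝ) : ℂ) - (starRingEnd ℂ) (w z) * (w z' - w z) := by
        have e1 : (starRingEnd ℂ) (w z) * w z = ((‖w z‖ ^ 2 : ℝ) : ℂ) := by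
          rw [mul_comm, Complex.mul_conj, Complex.normSq_eq_norm_sq]
        rw [mul_sub, e1]
        push_cast
        ring
      rw [e]
      refine (norm_sub_le _ _).trans ?_
      have hn := norm_nonneg (w z)
      have hn2 := norm_nonneg (w z' - w z)
      rw [norm_mul, RCLike.norm_conj, Complex.norm_real, Real.norm_eq_abs,
        abs_of_nonneg (by nlinarith)]
      nlinarith
    linarith
  · have hm : IsMaxOn (norm ∘ w) (ball z ρ) z := by
      intro u hu
      change ‖w u‖ ≤ ‖w z‖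
      rw [heq]
      exact hw u hu
    have h1 := Complex.eqOn_of_isPreconnected_of_isMaxOn_norm
      (convex_ball z ρ).isPreconnected isOpen_ball hd hzm hm hzm'
    have h2 : w z' = w z := h1
    rw [h2, sub_self, norm_zero, heq]
    norm_num

end Pool.Agent.Y151.KB
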